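import Pool.Agent.Lib_helper1.VecMain
import Pool.Agent.Lib_helper1.C1.K00

set_option maxRecDepth 100000

namespace Pool.Agent.Lib_helper1.C1

open Pool.Agent.Lib_helper1.V Pool.Agent.Lib_helper2.Collatz

/-- the parameters of the certificate: `g = 3 / 5`, growth `116 / 100` per digit -/
def K : Cert :=
  { k := 4, q := 20, u := 3, v := 5, A := 28526, B := 47539, C := 72057, D := 65536, P1 := 116, P2 := 100 }

theorem good1 : Good1 P where
  hs := by decide +kernel
  hj := by decide +kernel
  hL := by decide +kernel
  heb := by decide +kernel
  hcw := by decide +kernel
  hsh := by decide +kernel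
  hA := by decide +kernel
  hC := by decide +kernel
  hB := by decide +kernel

theorem good2 : Good2 P where
  hxa := by decide +kernel
  hxb1 := by decide +kernel
  heb1 := by decide +kernel
  hfa := by decide +kernel
  hef := by decide +kernel
  hKR1 := by decide +kernel
  hKR2 := by decide +kernel
  hsa := by decide +kernel
  hsb3 := by decide +kernel
  hF := by decide +kernel
  hF3 := by decide +kernel
  hKs := by decide +kernel

/-- first members of the blocks -/
def starts : List ℕ := [2]

theorem checked : Checked P Ed 7 3 10 starts where
  g1 := good1
  g2 := good2
  hinv := by decide +kernel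
  hcov := by decide +kernel
  hblk := List.forall_mem_cons.2 ⟨t0, List.forall_mem_nil _⟩

theorem certOK : CertOK K (cF P Ed (10 + 3)) (eF P Ed) :=
  checked.certOK (by decide +kernel) rfl rfl rfl rfl rfl (by decide +kernel) (by decide +kernel)
    (by decide +kernel) (by decide +kernel) (by decide +kernel) (by decide +kernel)
    (by decide +kernel) (by decide +kernel) (by decide +kernel) (by decide +kernel)

end Pool.Agent.Lib_helper1.C1
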