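import Pool.Agent.Lib_helper1.VecDefs

set_option maxRecDepth 100000

namespace Pool.Agent.Lib_helper1.C1

open Pool.Agent.Lib_helper1.V

noncomputable section

def e0 : Nat := unpack 40 5 20 (cat [nat_lit 0x5a543d1c60bc09151d8e92e2afe2e46ea37fffffcf857])

end

end Pool.Agent.Lib_helper1.C1
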